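import Pool.Agent.Lib.MP_770ffc_an.Defs

set_option autoImplicit false

open MeasureTheory

namespace Pool.Agent.Lib.NV66

open Pool.Agent.Lib.MP_770ffc_an (IsH1)

variable {E : Type} [NormedAddCommGroup E] [InnerProductSpace ℝ E]
  [FiniteDimensional ℝ E] [MeasurableSpace E] [BorelSpace E]

/-- `u ∈ H¹(Ω)` solves `-Δ u = m u` in `Ω` with the Neumann boundary condition, in the weak sense
that defines the Neumann Laplacian. -/
def SolvesNeumann (Ω : Set E) (m : ℝ) (u : E → ℝ) : Prop :=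
  ∃ g, IsH1 Ω u g ∧ ∀ w h, IsH1 Ω w h → ∫ x in Ω, inner ℝ (g x) (h x) = m * ∫ x in Ω, u x * w x

/-- The Neumann eigenvalue `μ_k(Ω)`, counted from `μ_0` and with multiplicity: the least `t` such
that there are `k + 1` eigenfunctions, linearly independent in `L²(Ω)`, with eigenvalues `≤ t`. -/
noncomputable def mu (Ω : Set E) (k : ℕ) : ℝ :=
  sInf {t : ℝ | ∃ (m : Fin (k + 1) → ℝ) (u : Fin (k + 1) → E → ℝ),
    (∀ i, m i ≤ t ∧ SolvesNeumann Ω (m i) (u i)) ∧
    ∀ c : Fin (k + 1) → ℝ, (∀ᵐ x ∂(volume.restrict Ω), ∑ i, c i * u i x = 0) → c = 0}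

end Pool.Agent.Lib.NV66
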