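import Pool.Agent.Lib.NV46.Base

/-! The compactness estimate of Rellich on a bounded Lipschitz domain. -/

set_option autoImplicit false

open MeasureTheory Set Filter Topology Metric
open scoped ENNReal

namespace Pool.Agent.Lib.NV66

open Pool.Agent.Lib.MP_770ffc_an Pool.Agent.Lib.NV46

variable {E : Type} [NormedAddCommGroup E] [InnerProductSpace ℝ E]
  [FiniteDimensional ℝ E] [MeasurableSpace E] [BorelSpace E]

lemma lin_TT {G : E → ℝ} (hG : Continuous G) (a b : E) :
    ∫⁻ x, TT G (x + a) (x + b) ≤ ∫⁻ z, ENNReal.ofReal (G z) := by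
  unfold TT
  have hm := hG.measurable
  rw [lintegral_lintegral_swap (by fun_prop)]
  have : ∀ t : ℝ, ∫⁻ x, ENNReal.ofReal (G (x + a + t • (x + b - (x + a)))) =
      ∫⁻ z, ENNReal.ofReal (G z) := fun t => by
    rw [← lintegral_add_right_eq_self (fun z => ENNReal.ofReal (G z)) (a + t • (b - a))]
    simp only [add_sub_add_left_eq_sub, add_assoc]
  simp only [this, lintegral_const, Measure.restrict_apply_univ, Real.volume_Ioc]
  exact mul_le_of_le_one_right' (ENNReal.ofReal_le_one.2 (by norm_num))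

/-- the translation estimate -/
lemma transl {Ω A : Set E} (hΩ : IsOpen Ω) (hA : MeasurableSet A) {u : E → ℝ} {g : E → E}
    (h : IsH1 Ω u g) {w : E} {D : ℝ} (hD : ‖w‖ ^ 2 ≤ D) (hs : ∀ x ∈ A, segment ℝ x (x + w) ⊆ Ω) :
    ∫⁻ x in A, ENNReal.ofReal ((u (x + w) - u x) ^ 2) ≤
      4 * ENNReal.ofReal D * ENNReal.ofReal (∫ x in Ω, ‖g x‖ ^ 2) := by
  obtain ⟨U, G, r, hr, hU, hG, G0, Gi, hb, hc⟩ := approx hΩ h
  have mT : ∀ n (a b : E), Measurable fun x => TT (G n) (x + a) (x + b) := fun n a b =>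
    (measurable_TT (hG n)).comp (f := fun x : E => (x + a, x + b)) (by fun_prop)
  have hpt : ∀ᵐ x ∂(volume.restrict A), ENNReal.ofReal ((u (x + w) - u x) ^ 2) ≤
      liminf (fun n => 2 * ENNReal.ofReal D *
        (TT (G n) (x + 0) (x + w) + TT (G n) (x + w) (x + 0))) atTop := by
    filter_upwards [ae_restrict_mem hA, ae_restrict_of_ae hc, ae_restrict_of_ae
      ((measurePreserving_add_right volume w).quasiMeasurePreserving.ae hc)] with x hx h1 h2
    have h3 : Tendsto (fun n => ENNReal.ofReal ((U n (x + w) - U n x) ^ 2)) atTop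
        (𝓝 (ENNReal.ofReal ((u (x + w) - u x) ^ 2))) :=
      (ENNReal.continuous_ofReal.tendsto _).comp (((h2 (hs x hx (right_mem_segment _ _ _))).sub
        (h1 (hs x hx (left_mem_segment _ _ _)))).pow 2)
    rw [← h3.liminf_eq, add_zero]
    refine liminf_le_liminf ?_
    have hK : IsCompact (segment ℝ x (x + w)) := by
      rw [segment_eq_image']
      exact isCompact_Icc.image (by fun_prop)
    obtain ⟨δ, hδ, hδ'⟩ := hK.exists_cthickening_subset_open hΩ (hs x hx)
    filter_upwards [hr.eventually (gt_mem_nhds hδ)] with n hn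
    refine full_le (hU n) (hG n) (G0 n) (by simpa using hD) fun z hz v => ?_
    have := hb n z (((closedBall_subset_closedBall hn.le).trans
      (closedBall_subset_cthickening hz δ)).trans hδ')
    calc _ ≤ (‖fderiv ℝ (U n) z‖ * ‖v‖) ^ 2 := by
          rw [← sq_abs]
          exact pow_le_pow_left₀ (abs_nonneg _) ((fderiv ℝ (U n) z).le_opNorm v) 2
      _ = ‖v‖ ^ 2 * ‖fderiv ℝ (U n) z‖ ^ 2 := by ring
      _ ≤ _ := by gcongr
  refine (lintegral_mono_ae hpt).trans ((lintegral_liminf_le fun n =>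
    ((mT n 0 w).fun_add (mT n w 0)).const_mul _).trans ?_)
  refine liminf_le_of_frequently_le' (Frequently.of_forall fun n => ?_)
  refine (setLIntegral_le_lintegral _ _).trans ?_
  rw [lintegral_const_mul _ ((mT n 0 w).fun_add (mT n w 0)), lintegral_add_left (mT n 0 w),
    ← (Gi n).2,
    ofReal_integral_eq_lintegral_ofReal (Gi n).1 (Eventually.of_forall (G0 n))]
  refine (mul_le_mul_right (add_le_add (lin_TT (hG n) 0 w) (lin_TT (hG n) w 0)) _).trans
    (le_of_eq ?_)
  ring

/-- a function of mean zero on a ball is controlled by its increments -/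
lemma mean {u : E → ℝ} {c x : E} {δ : ℝ} (hx : x ∈ ball c δ)
    (hu : MemLp u 2 (volume.restrict (ball c δ))) (h0 : ∫ y in ball c δ, u y = 0) :
    volume (ball (0 : E) δ) * ENNReal.ofReal (u x ^ 2) ≤
      ∫⁻ w in ball (0 : E) (2 * δ), ENNReal.ofReal ((u (x + w) - u x) ^ 2) := by
  have fin : IsFiniteMeasure (volume.restrict (ball c δ)) :=
    isFiniteMeasure_restrict.2 measure_ball_lt_top.ne
  have i1 := hu.integrable one_le_two
  have i2 := (hu.sub (memLp_const (u x))).integrable_sq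
  have a : volume.real (ball c δ) * u x ^ 2 ≤ ∫ y in ball c δ, (u y - u x) ^ 2 := by
    have := integral_mono ((integrable_const (u x ^ 2)).sub (i1.const_mul (2 * u x))) i2
      fun y => by simp only [Pi.sub_apply]; nlinarith [sq_nonneg (u y)]
    simp only [Pi.sub_apply] at this
    rw [integral_sub (integrable_const _) (i1.const_mul _), integral_const_mul, h0] at this
    simpa using this
  calc _ = ENNReal.ofReal (volume.real (ball c δ) * u x ^ 2) := by
        rw [ENNReal.ofReal_mul measureReal_nonneg, ofReal_measureReal measure_ball_lt_top.ne,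
          Measure.addHaar_ball_center volume c]
    _ ≤ ∫⁻ y in ball c δ, ENNReal.ofReal ((u y - u x) ^ 2) :=
        (ENNReal.ofReal_le_ofReal a).trans_eq (ofReal_integral_eq_lintegral_ofReal i2
          (Eventually.of_forall fun _ => sq_nonneg _))
    _ ≤ ∫⁻ y in ball x (2 * δ), ENNReal.ofReal ((u y - u x) ^ 2) := by
        refine lintegral_mono_set fun y hy => ?_
        rw [mem_ball] at *
        linarith [dist_triangle_right y x c]
    _ = _ := by
        rw [← lintegral_indicator measurableSet_ball, ← lintegral_indicator measurableSet_ball,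
          ← lintegral_add_left_eq_self _ x]
        congr 1
        ext w
        by_cases hw : w ∈ ball (0 : E) (2 * δ)
        · rw [indicator_of_mem hw, indicator_of_mem (by simpa using hw)]
        · rw [indicator_of_notMem hw, indicator_of_notMem (by simpa using hw)]

lemma inside {Ω K : Set E} (hΩ : IsOpen Ω) (hK : IsCompact K) (hKΩ : K ⊆ Ω) {η : ℝ} (hη : 0 < η) :
    ∃ (δ : ℝ) (s : Set E), s.Finite ∧ (∀ c ∈ s, ball c δ ⊆ Ω) ∧ ∀ u g, Measurable u → IsH1 Ω u g →
      (∀ c ∈ s, ∫ y in ball c δ, u y = 0) → ∫⁻ x in K, ENNReal.ofReal (u x ^ 2) ≤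
        2 ^ Module.finrank ℝ E * (4 * ENNReal.ofReal (η ^ 2) *
          ENNReal.ofReal (∫ x in Ω, ‖g x‖ ^ 2)) := by
  obtain ⟨ρ, hρ, hρ'⟩ := hK.exists_thickening_subset_open hΩ hKΩ
  obtain ⟨δ, δ0, δ1, δ2⟩ : ∃ δ, 0 < δ ∧ 2 * δ ≤ ρ ∧ 2 * δ ≤ η :=
    ⟨min ρ η / 2, by positivity, by linarith [min_le_left ρ η], by linarith [min_le_right ρ η]⟩
  have hb : ∀ c ∈ K, ball c (2 * δ) ⊆ Ω := fun c hc =>
    ((ball_subset_ball δ1).trans (ball_subset_thickening hc ρ)).trans hρ'
  obtain ⟨s, sK, sf, sc⟩ := hK.finite_cover_balls δ0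
  have hb' : ∀ c ∈ s, ball c δ ⊆ Ω := fun c hc =>
    (ball_subset_ball (by linarith)).trans (hb c (sK hc))
  refine ⟨δ, s, sf, hb', fun u g hm h h0 => ?_⟩
  have v0 : volume (ball (0 : E) δ) ≠ 0 := (measure_ball_pos _ _ δ0).ne'
  have vt : volume (ball (0 : E) δ) ≠ ⊤ := measure_ball_lt_top.ne
  rw [← ENNReal.mul_le_mul_iff_right v0 vt, ← lintegral_const_mul' _ _ vt]
  calc _ ≤ ∫⁻ x in K, ∫⁻ w in ball (0 : E) (2 * δ), ENNReal.ofReal ((u (x + w) - u x) ^ 2) := by
        refine setLIntegral_mono' hK.measurableSet fun x hx => ?_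
        obtain ⟨c, hc, hxc⟩ := mem_iUnion₂.1 (sc hx)
        exact mean hxc (h.1.mono_measure (Measure.restrict_mono (hb' c hc) le_rfl)) (h0 c hc)
    _ = ∫⁻ w in ball (0 : E) (2 * δ), ∫⁻ x in K, ENNReal.ofReal ((u (x + w) - u x) ^ 2) :=
        lintegral_lintegral_swap (by fun_prop)
    _ ≤ ∫⁻ _ in ball (0 : E) (2 * δ), 4 * ENNReal.ofReal (η ^ 2) *
          ENNReal.ofReal (∫ x in Ω, ‖g x‖ ^ 2) := by
        refine setLIntegral_mono' measurableSet_ball fun w hw => ?_
        rw [mem_ball_zero_iff] at hw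
        refine transl hΩ hK.measurableSet h (by gcongr; linarith) fun x hx => ?_
        exact ((convex_ball x _).segment_subset (mem_ball_self (by linarith))
          (by simpa using hw)).trans (hb x hx)
    _ = _ := by
        rw [setLIntegral_const, Measure.addHaar_ball_mul_of_pos _ _ two_pos,
          ENNReal.ofReal_pow zero_le_two, ENNReal.ofReal_ofNat]
        ring

omit [MeasurableSpace E] [BorelSpace E] in
/-- near each point of the closure a small translation moves the domain inside -/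
lemma loc {Ω : Set E} (h : IsLipschitzDomain Ω) {x : E} (hx : x ∈ closure Ω) :
    ∃ N, IsOpen N ∧ x ∈ N ∧ ∀ η > 0, ∃ (w : E) (K : Set E), ‖w‖ ≤ η ∧ IsCompact K ∧ K ⊆ Ω ∧
      ∀ y ∈ N ∩ Ω, segment ℝ y (y + w) ⊆ Ω ∧ y + w ∈ K := by
  by_cases hi : x ∈ Ω
  · obtain ⟨r, hr, hb⟩ := nhds_basis_closedBall.mem_iff.1 (h.1.mem_nhds hi)
    refine ⟨ball x r, isOpen_ball, mem_ball_self hr, fun η hη => ⟨0, closedBall x r,
      by simpa using hη.le, isCompact_closedBall _ _, hb, fun y hy => ?_⟩⟩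
    simpa using ⟨hy.2, mem_ball.1 hy.1 |>.le⟩
  obtain ⟨r, v, L, γ, hr, hv, hL, hγ, he⟩ := h.2.2.2 x ⟨hx, fun hh => hi (interior_subset hh)⟩
  refine ⟨ball x (r / 2), isOpen_ball, mem_ball_self (half_pos hr), fun η hη => ?_⟩
  obtain ⟨t, t0, t1, t2⟩ : ∃ t, 0 < t ∧ t ≤ η ∧ t < r / 2 :=
    ⟨min η (r / 4), by positivity, min_le_left _ _, (min_le_right _ _).trans_lt (by linarith)⟩
  have key : ∀ y ∈ closedBall x (r / 2), ∀ a, 0 ≤ a → a ≤ t → inner ℝ y v - a < γ y →
      y + (-a) • v ∈ Ω := by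
    intro y hy a a0 a1 hl
    have : y + (-a) • v ∈ Ω ∩ ball x r := by
      rw [he]
      refine ⟨?_, ?_⟩
      · have := dist_triangle (y + (-a) • v) y x
        rw [dist_self_add_left, norm_smul, hv, norm_neg, Real.norm_of_nonneg a0] at this
        rw [mem_closedBall] at hy
        rw [mem_ball]
        linarith
      · rw [hγ, inner_add_left, real_inner_smul_left, real_inner_self_eq_norm_sq, hv]
        linarith
    exact this.1
  refine ⟨(-t) • v, (fun y => y + (-t) • v) '' (closedBall x (r / 2) ∩ {y | inner ℝ y v ≤ γ y}),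
    by rwa [norm_smul, hv, norm_neg, Real.norm_of_nonneg t0.le, mul_one],
    ((isCompact_closedBall _ _).inter_right (isClosed_le (by fun_prop) hL.continuous)).image
      (by fun_prop), ?_, fun y hy => ?_⟩
  · rintro _ ⟨y, hy, rfl⟩
    exact key y hy.1 t t0.le le_rfl (by linarith [show inner ℝ y v ≤ γ y from hy.2])
  · have hl : inner ℝ y v < γ y :=
      (he.subset ⟨hy.2, ball_subset_ball (half_le_self hr.le) hy.1⟩).2
    refine ⟨?_, y, ⟨ball_subset_closedBall hy.1, hl.le⟩, rfl⟩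
    rw [segment_eq_image']
    rintro _ ⟨a, ha, rfl⟩
    have := key y (ball_subset_closedBall hy.1) (a * t) (mul_nonneg ha.1 t0.le)
      (by nlinarith [ha.2]) (by nlinarith [ha.1])
    simpa [smul_smul] using this

/-- Rellich: on a subspace of finite codimension the `L²` norm is small -/
theorem rellich {Ω : Set E} (h : IsLipschitzDomain Ω) {ε : ℝ} (hε : 0 < ε) :
    ∃ (δ : ℝ) (s : Set E), s.Finite ∧ (∀ c ∈ s, ball c δ ⊆ Ω) ∧ ∀ u g, Measurable u → IsH1 Ω u g →
      (∀ c ∈ s, ∫ y in ball c δ, u y = 0) → ∫ x in Ω, u x ^ 2 ≤ ε * ∫ x in Ω, ‖g x‖ ^ 2 := by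
  choose! N No Nx hN using fun x (hx : x ∈ closure Ω) => loc h hx
  obtain ⟨t, ht, hc⟩ := h.2.2.1.isCompact_closure.elim_nhds_subcover N
    fun x hx => (No x hx).mem_nhds (Nx x hx)
  obtain ⟨C, hC⟩ : ∃ C : ℕ, C = t.card * (8 + 8 * 2 ^ Module.finrank ℝ E) := ⟨_, rfl⟩
  obtain ⟨η, η0, hη⟩ : ∃ η > 0, C * η ^ 2 ≤ ε := by
    refine ⟨√(ε / (C + 1)), by positivity, ?_⟩
    rw [Real.sq_sqrt (by positivity), ← mul_div_assoc, div_le_iff₀ (by positivity)]
    nlinarith
  choose! w K hw Kc KΩ hK using fun x (hx : x ∈ closure Ω) => hN x hx η η0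
  obtain ⟨δ, s, sf, hb, hs⟩ := inside h.1 (t.isCompact_biUnion fun x hx => Kc x (ht x hx))
    (iUnion₂_subset fun x hx => KΩ x (ht x hx)) η0
  refine ⟨δ, s, sf, hb, fun u g hm hu h0 => ?_⟩
  have I := hs u g hm hu h0
  have Γ0 : 0 ≤ ∫ x in Ω, ‖g x‖ ^ 2 := integral_nonneg fun _ => sq_nonneg _
  generalize hK0 : (⋃ x ∈ t, K x) = K0 at I
  have K0c : MeasurableSet K0 :=
    hK0 ▸ (t.isCompact_biUnion fun x hx => Kc x (ht x hx)).measurableSet
  have one : ∀ x ∈ t, ∫⁻ y in N x ∩ Ω, ENNReal.ofReal (u y ^ 2) ≤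
      (8 + 8 * 2 ^ Module.finrank ℝ E) * (ENNReal.ofReal (η ^ 2) *
        ENNReal.ofReal (∫ x in Ω, ‖g x‖ ^ 2)) := by
    intro x hx
    have hx' := ht x hx
    have mA := ((No x hx').inter h.1).measurableSet
    have a := transl h.1 mA hu (D := η ^ 2) (by gcongr; exact hw x hx') fun y hy =>
      (hK x hx' y hy).1
    have b : ∫⁻ y in N x ∩ Ω, ENNReal.ofReal (u (y + w x) ^ 2) ≤
        ∫⁻ y in K0, ENNReal.ofReal (u y ^ 2) := by
      rw [← lintegral_indicator mA, ← lintegral_indicator K0c,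
        ← lintegral_add_right_eq_self (K0.indicator _) (w x)]
      refine lintegral_mono fun z => ?_
      by_cases hz : z ∈ N x ∩ Ω
      · rw [indicator_of_mem hz, indicator_of_mem (hK0 ▸ mem_biUnion hx (hK x hx' z hz).2)]
      · rw [indicator_of_notMem hz]
        exact zero_le
    calc _ ≤ ∫⁻ y in N x ∩ Ω, 2 * ENNReal.ofReal ((u (y + w x) - u y) ^ 2) +
          2 * ENNReal.ofReal (u (y + w x) ^ 2) := by
          refine lintegral_mono fun y => ?_
          rw [← mul_add, ← ENNReal.ofReal_add (sq_nonneg _) (sq_nonneg _),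
            ← ENNReal.ofReal_ofNat 2, ← ENNReal.ofReal_mul zero_le_two]
          exact ENNReal.ofReal_le_ofReal (by nlinarith [sq_nonneg (2 * u (y + w x) - u y)])
      _ ≤ _ := by
          rw [lintegral_add_left (by fun_prop), lintegral_const_mul _ (by fun_prop),
            lintegral_const_mul _ (by fun_prop)]
          refine (add_le_add (mul_le_mul_right a 2) (mul_le_mul_right (b.trans I) 2)).trans
            (le_of_eq ?_)
          ring
  have all : ∫⁻ y in Ω, ENNReal.ofReal (u y ^ 2) ≤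
      ENNReal.ofReal (C * η ^ 2 * ∫ x in Ω, ‖g x‖ ^ 2) := by
    calc _ ≤ ∫⁻ y in ⋃ x : t, N x ∩ Ω, ENNReal.ofReal (u y ^ 2) := by
          refine lintegral_mono_set fun y hy => ?_
          obtain ⟨x, hx, hy'⟩ := mem_iUnion₂.1 (hc (subset_closure hy))
          exact mem_iUnion.2 ⟨⟨x, hx⟩, hy', hy⟩
      _ ≤ ∑' x : t, ∫⁻ y in N x ∩ Ω, ENNReal.ofReal (u y ^ 2) := lintegral_iUnion_le _ _
      _ ≤ _ := by
          rw [tsum_fintype]
          refine (Finset.sum_le_card_nsmul _ _ _ fun (x : t) _ => one x x.2).trans (le_of_eq ?_)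
          rw [mul_assoc (C : ℝ), ENNReal.ofReal_mul (Nat.cast_nonneg _),
            ENNReal.ofReal_mul (sq_nonneg _), ENNReal.ofReal_natCast, hC]
          simp [mul_assoc]
  rw [← ofReal_integral_eq_lintegral_ofReal hu.1.integrable_sq
    (Eventually.of_forall fun _ => sq_nonneg _), ENNReal.ofReal_le_ofReal_iff (by positivity)] at all
  exact all.trans (by gcongr)

end Pool.Agent.Lib.NV66
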