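import Mathlib

/-! The min-max principle for a compact map between real Hilbert spaces. -/

open Module Module.End
open scoped RealInnerProductSpace

namespace Pool.Agent.Lib.NV66

variable {H X : Type} [NormedAddCommGroup H] [InnerProductSpace ℝ H] [CompleteSpace H]
  [NormedAddCommGroup X] [InnerProductSpace ℝ X] [CompleteSpace X]

/-- small on subspaces of finite codimension -/
def Small (i : H →L[ℝ] X) : Prop :=
  ∀ ε > 0, ∃ W : Submodule ℝ H, FiniteDimensional ℝ W ∧ ∀ p ∈ Wᗮ, ‖i p‖ ≤ ε * ‖p‖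

omit [CompleteSpace H] in
theorem Small.compact {i : H →L[ℝ] X} (h : Small i) : IsCompactOperator i := by
  refine (isClosed_setOfPred_isCompactOperator (σ₁₂ := RingHom.id ℝ)).closure_subset
    (Metric.mem_closure_iff.2 fun ε hε => ?_)
  obtain ⟨W, _, hW⟩ := h (ε / 2) (half_pos hε)
  refine ⟨i ∘L W.starProjection, ?_, ?_⟩
  · exact (isCompactOperator_of_locallyCompactSpace_dom W.orthogonalProjectionOnto).clm_comp
      (i ∘L W.subtypeL)
  · rw [dist_eq_norm]
    refine lt_of_le_of_lt (ContinuousLinearMap.opNorm_le_bound _ (half_pos hε).le fun p => ?_)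
      (half_lt_self hε)
    have e : (i - i ∘L W.starProjection) p = i (Wᗮ.starProjection p) := by
      simp [Submodule.starProjection_orthogonal_val]
    rw [e]
    exact (hW _ (Submodule.starProjection_apply_mem _ _)).trans
      (mul_le_mul_of_nonneg_left (Submodule.norm_starProjection_apply_le _ _) (half_pos hε).le)

/-- the operator of the form `⟪i p, i q⟫` -/
noncomputable def TT (i : H →L[ℝ] X) : H →L[ℝ] H := ContinuousLinearMap.adjoint i ∘L i

theorem TT_inner (i : H →L[ℝ] X) (p q : H) : ⟪TT i p, q⟫ = ⟪i p, i q⟫ :=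
  ContinuousLinearMap.adjoint_inner_left i q (i p)

theorem TT_symm (i : H →L[ℝ] X) : (TT i : H →ₗ[ℝ] H).IsSymmetric := fun p q => by
  change ⟪TT i p, q⟫ = ⟪p, TT i q⟫
  rw [real_inner_comm (TT i q), TT_inner, TT_inner, real_inner_comm]

theorem mem_eig {i : H →L[ℝ] X} {l : ℝ} {p : H} :
    p ∈ eigenspace (TT i : End ℝ H) l ↔ ∀ q, ⟪i p, i q⟫ = l * ⟪p, q⟫ := by
  rw [mem_eigenspace_iff]
  refine ⟨fun h q => ?_, fun h => ext_inner_right ℝ fun q => ?_⟩
  · rw [← TT_inner, ← real_inner_smul_left, ← h]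
    rfl
  · rw [real_inner_smul_left, ← h, ← TT_inner]
    rfl

theorem form (i : H →L[ℝ] X) (P : ℝ → Prop) (a b : ℝ) (h : ∀ l, P l → 0 ≤ a + b * l) {p : H}
    (hp : p ∈ ⨆ l : {l // P l}, eigenspace (TT i : End ℝ H) l) :
    0 ≤ a * ‖p‖ ^ 2 + b * ‖i p‖ ^ 2 := by
  obtain ⟨f, hf, rfl⟩ := (Submodule.mem_iSup_iff_exists_finsupp _ _).1 hp
  rw [← real_inner_self_eq_norm_sq, ← real_inner_self_eq_norm_sq, Finsupp.sum, map_sum,
    sum_inner, sum_inner, Finset.mul_sum, Finset.mul_sum, ← Finset.sum_add_distrib]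
  refine Finset.sum_nonneg fun l _ => ?_
  rw [← map_sum i, mem_eig.1 (hf l), ← mul_assoc, ← add_mul, inner_sum]
  refine mul_nonneg (h l l.2) (Finset.sum_nonneg fun m _ => ?_)
  by_cases e : l = m
  · subst e
    exact real_inner_self_nonneg
  · exact ((TT_symm i).orthogonalFamily_eigenspaces (fun hh => e (Subtype.ext hh))
      ⟨_, hf l⟩ ⟨_, hf m⟩).ge

/-- the form is small on the complement of the large eigenspaces -/
theorem small_perp {i : H →L[ℝ] X} (hi : IsCompactOperator i) (c : ℝ) (W : Submodule ℝ H)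
    [FiniteDimensional ℝ W] (hW : W = ⨆ l : {l // c < l}, eigenspace (TT i : End ℝ H) l) {p : H}
    (hp : p ∈ Wᗮ) : ‖i p‖ ^ 2 ≤ c * ‖p‖ ^ 2 := by
  have hT : IsCompactOperator (TT i) := hi.clm_comp (ContinuousLinearMap.adjoint i)
  have hd := ContinuousLinearMap.orthogonalComplement_iSup_eigenspaces_eq_bot hT (TT_symm i)
  rw [← Submodule.topologicalClosure_eq_top_iff, ← Submodule.dense_iff_topologicalClosure_eq_top]
    at hd
  have key : ∀ x : H, ‖i (Wᗮ.starProjection x)‖ ^ 2 ≤ c * ‖Wᗮ.starProjection x‖ ^ 2 := by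
    refine fun x => Set.mem_ofPred_eq.mp (closure_minimal (t := {x | ‖i (Wᗮ.starProjection x)‖ ^ 2 ≤
      c * ‖Wᗮ.starProjection x‖ ^ 2}) (fun y hy => ?_)
      (isClosed_le (by fun_prop) (by fun_prop)) (hd x))
    rw [Set.mem_ofPred_eq]
    have hm : Wᗮ.starProjection y ∈ ⨆ l : {l // l ≤ c}, eigenspace (TT i : End ℝ H) l := by
      refine Submodule.iSup_induction (motive := fun y => Wᗮ.starProjection y ∈
        ⨆ l : {l // l ≤ c}, eigenspace (TT i : End ℝ H) l) _ hy (fun l e he => ?_) (by simp)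
        fun a b ha hb => by simpa only [map_add] using add_mem ha hb
      rcases le_or_gt l c with hl | hl
      · have : e ∈ Wᗮ := by
          rw [hW, ← Submodule.iInf_orthogonal, Submodule.mem_iInf]
          intro m z hz
          exact (TT_symm i).orthogonalFamily_eigenspaces (hl.trans_lt m.2).ne' ⟨_, hz⟩ ⟨_, he⟩
        rw [Submodule.starProjection_eq_self_iff.2 this]
        exact Submodule.mem_iSup_of_mem ⟨l, hl⟩ he
      · have : e ∈ W := hW ▸ Submodule.mem_iSup_of_mem ⟨l, hl⟩ he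
        rw [Submodule.starProjection_orthogonal_val, Submodule.starProjection_eq_self_iff.2 this,
          sub_self]
        exact zero_mem _
    linarith [form i (· ≤ c) c (-1) (fun l hl => by linarith) hm]
  simpa [Submodule.starProjection_eq_self_iff.2 hp] using key p

omit [CompleteSpace H] in
theorem exists_perp (V W : Submodule ℝ H) [FiniteDimensional ℝ W] [FiniteDimensional ℝ V]
    (h : finrank ℝ W < finrank ℝ V) : ∃ p ∈ V, p ≠ 0 ∧ p ∈ Wᗮ := by
  obtain ⟨p, hp, h0⟩ := Submodule.exists_mem_ne_zero_of_ne_bot (LinearMap.ker_ne_bot_of_finrank_lt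
    (f := (W.orthogonalProjectionOnto : H →ₗ[ℝ] W) ∘ₗ V.subtype) h)
  exact ⟨p, p.2, fun e => h0 (Subtype.ext e), Submodule.orthogonalProjectionOnto_eq_zero_iff.1 hp⟩

/-- a space of dimension `n` on which the form is large gives `n` eigenvectors -/
theorem exists_eig {i : H →L[ℝ] X} (hi : IsCompactOperator i) {c : ℝ} {n : ℕ} (v : Fin n → H)
    (hv : ∀ a : Fin n → ℝ, a ≠ 0 → c * ‖∑ j, a j • v j‖ ^ 2 < ‖i (∑ j, a j • v j)‖ ^ 2) :
    ∃ (l : Fin n → ℝ) (p : Fin n → H), LinearIndependent ℝ p ∧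
      ∀ j, c < l j ∧ p j ∈ eigenspace (TT i : End ℝ H) (l j) := by
  obtain ⟨b, hb, hs, hl⟩ := exists_linearIndependent ℝ
    (⋃ l : {l // c < l}, (eigenspace (TT i : End ℝ H) l : Set H))
  rw [← Submodule.iSup_eq_span] at hs
  by_cases hn : Nonempty (Fin n ↪ b)
  · obtain ⟨e⟩ := hn
    choose l hl' using fun j => Set.mem_iUnion.1 (hb (e j).2)
    exact ⟨fun j => l j, fun j => e j, hl.comp e e.injective, fun j => ⟨(l j).2, hl' j⟩⟩
  exfalso
  have : Finite b := by
    by_contra hf
    have : Infinite b := not_finite_iff_infinite.1 hf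
    exact hn ⟨Fin.valEmbedding.trans (Infinite.natEmbedding b)⟩
  have := Fintype.ofFinite b
  have hc : Fintype.card b < n := by
    by_contra hh
    exact hn (Function.Embedding.nonempty_of_card_le (by simpa using hh))
  have : FiniteDimensional ℝ (Submodule.span ℝ b) := FiniteDimensional.span_of_finite ℝ b.toFinite
  have li : LinearIndependent ℝ v := Fintype.linearIndependent_iff.2 fun a ha j => by
    by_contra h0
    simpa [ha] using hv a fun e => h0 (congrFun e j)
  have : FiniteDimensional ℝ (Submodule.span ℝ (Set.range v)) :=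
    FiniteDimensional.span_of_finite ℝ (Set.finite_range v)
  obtain ⟨p, hp, h0, hW⟩ := exists_perp (Submodule.span ℝ (Set.range v)) (Submodule.span ℝ b) (by
    rw [finrank_span_eq_card li, Fintype.card_fin]
    exact (finrank_span_le_card b).trans_lt (by simpa using hc))
  obtain ⟨a, rfl⟩ := (Submodule.mem_span_range_iff_exists_fun ℝ).1 hp
  exact (hv a fun e => h0 (by simp [e])).not_ge (small_perp hi c _ hs hW)

theorem large {i : H →L[ℝ] X} {c : ℝ} {n : ℕ} {l : Fin n → ℝ} {p : Fin n → H}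
    (h : ∀ j, c ≤ l j ∧ p j ∈ eigenspace (TT i : End ℝ H) (l j)) (a : Fin n → ℝ) :
    c * ‖∑ j, a j • p j‖ ^ 2 ≤ ‖i (∑ j, a j • p j)‖ ^ 2 := by
  have := form i (c ≤ ·) (-c) 1 (fun l hl => by linarith) (p := ∑ j, a j • p j)
    (sum_mem fun j _ => Submodule.smul_mem _ _ (Submodule.mem_iSup_of_mem ⟨l j, (h j).1⟩ (h j).2))
  linarith

end Pool.Agent.Lib.NV66
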