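import Pool.Agent.Lib.NV66.Defs
import Pool.Agent.Lib.NV66.Rel
import Pool.Agent.Lib.NV66.Spec

/-! `H¹(Ω)` as a Hilbert space; the min-max values are the eigenvalues. -/

set_option autoImplicit false

open MeasureTheory Set Filter Metric Module Module.End
open scoped ContDiff RealInnerProductSpace

namespace Pool.Agent.Lib.NV66

open Pool.Agent.Lib.MP_770ffc_an (IsH1 IsLipschitzDomain Adm neumannEig neumannEig_eq)
open Pool.Agent.Lib.NV46 (adm_nonneg)

variable {E : Type} [NormedAddCommGroup E] [InnerProductSpace ℝ E]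
  [FiniteDimensional ℝ E] [MeasurableSpace E] [BorelSpace E]

abbrev PP (Ω : Set E) : Type :=
  WithLp 2 (Lp ℝ 2 (volume.restrict Ω) × Lp E 2 (volume.restrict Ω))

def tests (Ω : Set E) : Set (PP Ω) :=
  {q | ∃ (φ : E → ℝ) (v : E), ContDiff ℝ ∞ φ ∧ HasCompactSupport φ ∧ tsupport φ ⊆ Ω ∧
    q.fst =ᵐ[volume.restrict Ω] (fun x => fderiv ℝ φ x v) ∧
    q.snd =ᵐ[volume.restrict Ω] fun x => φ x • v}

noncomputable abbrev HH (Ω : Set E) : Submodule ℝ (PP Ω) := (Submodule.span ℝ (tests Ω))ᗮ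

noncomputable def ii (Ω : Set E) : HH Ω →L[ℝ] Lp ℝ 2 (volume.restrict Ω) :=
  WithLp.fstL 2 ℝ _ _ ∘L (HH Ω).subtypeL

variable {Ω : Set E}

/-- `p` is the class of the pair `(u, g)` -/
def Rep (p : PP Ω) (u : E → ℝ) (g : E → E) : Prop :=
  p.fst =ᵐ[volume.restrict Ω] u ∧ p.snd =ᵐ[volume.restrict Ω] g

lemma Rep.in1 {p q : PP Ω} {u w : E → ℝ} {g h : E → E} (a : Rep p u g) (b : Rep q w h) :
    ⟪p.fst, q.fst⟫ = ∫ x in Ω, u x * w x := by
  rw [L2.inner_def]
  refine integral_congr_ae ?_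
  filter_upwards [a.1, b.1] with x h1 h2
  simp [h1, h2, mul_comm]

lemma Rep.in2 {p q : PP Ω} {u w : E → ℝ} {g h : E → E} (a : Rep p u g) (b : Rep q w h) :
    ⟪p, q⟫ = (∫ x in Ω, u x * w x) + ∫ x in Ω, ⟪g x, h x⟫ := by
  rw [WithLp.prod_inner_apply, ← a.in1 b, L2.inner_def (WithLp.ofLp p).2]
  congr 1
  refine integral_congr_ae ?_
  filter_upwards [a.2, b.2] with x h1 h2
  rw [← h1, ← h2]
  rfl

lemma Rep.mem_iff {p : PP Ω} {u : E → ℝ} {g : E → E} (a : Rep p u g) : p ∈ HH Ω ↔ IsH1 Ω u g := by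
  have key : ∀ (q : PP Ω) (φ : E → ℝ) (v : E),
      Rep q (fun x => fderiv ℝ φ x v) (fun x => φ x • v) → (⟪p, q⟫ = 0 ↔
        ∫ x in Ω, u x * fderiv ℝ φ x v = -∫ x in Ω, ⟪g x, v⟫ * φ x) := by
    intro q φ v hq
    rw [a.in2 hq, add_eq_zero_iff_eq_neg]
    simp only [real_inner_smul_right, mul_comm]
  constructor
  · refine fun hp => ⟨(Lp.memLp _).ae_eq a.1, (Lp.memLp _).ae_eq a.2, fun φ h1 h2 h3 v => ?_⟩
    have m1 : MemLp (fun x => fderiv ℝ φ x v) 2 (volume.restrict Ω) :=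
      (((h1.continuous_fderiv (by simp)).clm_apply continuous_const).memLp_of_hasCompactSupport
        (h2.fderiv_apply ℝ v)).restrict Ω
    have m2 : MemLp (fun x => φ x • v) 2 (volume.restrict Ω) :=
      ((h1.continuous.smul continuous_const).memLp_of_hasCompactSupport h2.smul_right).restrict Ω
    exact (key (WithLp.toLp 2 (m1.toLp _, m2.toLp _)) φ v ⟨m1.coeFn_toLp, m2.coeFn_toLp⟩).1
      (Submodule.inner_left_of_mem_orthogonal (Submodule.subset_span (s := tests Ω)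
        ⟨φ, v, h1, h2, h3, m1.coeFn_toLp, m2.coeFn_toLp⟩) hp)
  · refine fun h => (Submodule.mem_orthogonal' _ _).2 fun q hq => ?_
    induction hq using Submodule.span_induction with
    | mem q hq =>
      obtain ⟨φ, v, h1, h2, h3, h4⟩ := hq
      exact (key q φ v h4).2 (h.2.2 φ h1 h2 h3 v)
    | zero => exact inner_zero_right _
    | add x y _ _ hx hy => rw [inner_add_right, hx, hy, add_zero]
    | smul c x _ hx => rw [real_inner_smul_right, hx, mul_zero]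

lemma Rep.self (p : PP Ω) : Rep p p.fst p.snd := ⟨EventuallyEq.rfl, EventuallyEq.rfl⟩

lemma exists_rep {u : E → ℝ} {g : E → E} (h : IsH1 Ω u g) : ∃ p : HH Ω, Rep p.1 u g :=
  have r : Rep (WithLp.toLp 2 (h.1.toLp _, h.2.1.toLp _)) u g := ⟨h.1.coeFn_toLp, h.2.1.coeFn_toLp⟩
  ⟨⟨_, r.mem_iff.2 h⟩, r⟩

lemma Rep.sum {n : ℕ} {p : Fin n → HH Ω} {u : Fin n → E → ℝ} {g : Fin n → E → E}
    (h : ∀ j, Rep (p j).1 (u j) (g j)) (c : Fin n → ℝ) :
    Rep (∑ j, c j • p j : HH Ω).1 (fun x => ∑ j, c j * u j x) fun x => ∑ j, c j • g j x := by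
  induction (Finset.univ : Finset (Fin n)) using Finset.cons_induction with
  | empty => exact ⟨Lp.coeFn_zero _ _ _, Lp.coeFn_zero _ _ _⟩
  | cons j s hj ih =>
    simp only [Finset.sum_cons]
    constructor
    · filter_upwards [Lp.coeFn_add (c j • (p j).1.fst) (∑ j ∈ s, c j • p j : HH Ω).1.fst,
        Lp.coeFn_smul (c j) (p j).1.fst, (h j).1, ih.1] with x h1 h2 h3 h4
      exact h1.trans (by rw [Pi.add_apply, h2, h4, Pi.smul_apply, h3, smul_eq_mul])
    · filter_upwards [Lp.coeFn_add (c j • (p j).1.snd) (∑ j ∈ s, c j • p j : HH Ω).1.snd,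
        Lp.coeFn_smul (c j) (p j).1.snd, (h j).2, ih.2] with x h1 h2 h3 h4
      exact h1.trans (by rw [Pi.add_apply, h2, h4, Pi.smul_apply, h3])

lemma Rep.n1 {p : HH Ω} {u : E → ℝ} {g : E → E} (a : Rep p.1 u g) :
    ‖ii Ω p‖ ^ 2 = ∫ x in Ω, u x ^ 2 := by
  rw [← real_inner_self_eq_norm_sq]
  simp only [sq]
  exact a.in1 a

lemma Rep.n2 {p : HH Ω} {u : E → ℝ} {g : E → E} (a : Rep p.1 u g) :
    ‖p‖ ^ 2 = (∫ x in Ω, u x ^ 2) + ∫ x in Ω, ‖g x‖ ^ 2 := by
  change ‖p.1‖ ^ 2 = _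
  simpa only [← sq, real_inner_self_eq_norm_sq] using a.in2 a

lemma Rep.eig {p : HH Ω} {u : E → ℝ} {g : E → E} (a : Rep p.1 u g) {m : ℝ} (hm : 1 + m ≠ 0) :
    p ∈ eigenspace (TT (ii Ω) : End ℝ (HH Ω)) (1 + m)⁻¹ ↔
      ∀ w h, IsH1 Ω w h → ∫ x in Ω, ⟪g x, h x⟫ = m * ∫ x in Ω, u x * w x := by
  have key : ∀ (q : HH Ω) w h, Rep q.1 w h → (⟪ii Ω p, ii Ω q⟫ = (1 + m)⁻¹ * ⟪p, q⟫ ↔
      ∫ x in Ω, ⟪g x, h x⟫ = m * ∫ x in Ω, u x * w x) := by
    intro q w h b
    rw [show ⟪ii Ω p, ii Ω q⟫ = _ from a.in1 b, show ⟪p, q⟫ = _ from a.in2 b,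
      eq_inv_mul_iff_mul_eq₀ hm]
    constructor <;> intro <;> linarith
  rw [mem_eig]
  refine ⟨fun H w h hw => ?_, fun H q => (key q _ _ (Rep.self _)).2
    (H _ _ ((Rep.self _).mem_iff.1 q.2))⟩
  obtain ⟨q, b⟩ := exists_rep hw
  exact (key q w h b).1 (H q)

lemma exists_avg {B : Set E} (hB : MeasurableSet B) (hΩ : B ⊆ Ω) (hv : volume B ≠ ⊤) :
    ∃ z : HH Ω, ∀ p : HH Ω, ⟪z, p⟫ = ∫ x in B, p.1.fst x := by
  have hv' : volume.restrict Ω B ≠ ⊤ := ne_top_of_le_ne_top hv (Measure.restrict_apply_le _ _)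
  refine ⟨ContinuousLinearMap.adjoint (ii Ω) (indicatorConstLp 2 hB hv' 1), fun p => ?_⟩
  rw [ContinuousLinearMap.adjoint_inner_left (ii Ω) p, L2.inner_indicatorConstLp_one,
    Measure.restrict_restrict_of_subset hΩ]
  rfl

theorem small (h : IsLipschitzDomain Ω) : Small (ii Ω) := by
  intro ε hε
  obtain ⟨δ, s, sf, hb, H⟩ := rellich h (pow_pos hε 2)
  choose z hz using fun c : s => exists_avg measurableSet_ball (hb c c.2) measure_ball_lt_top.ne
  have := sf.to_subtype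
  refine ⟨Submodule.span ℝ (range z), FiniteDimensional.span_of_finite ℝ (finite_range z),
    fun p hp => ?_⟩
  have r := Rep.self p.1
  have := H _ _ (Lp.stronglyMeasurable _).measurable (r.mem_iff.1 p.2) fun c hc =>
    (hz ⟨c, hc⟩ p).symm.trans (Submodule.inner_right_of_mem_orthogonal
      (Submodule.subset_span (mem_range_self _)) hp)
  refine le_of_pow_le_pow_left₀ two_ne_zero (by positivity) ?_
  rw [mul_pow, r.n1, r.n2]
  refine this.trans (mul_le_mul_of_nonneg_left (le_add_of_nonneg_left ?_) (sq_nonneg _))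
  exact integral_nonneg fun _ => sq_nonneg _

lemma sq_pos {u : E → ℝ} (h : MemLp u 2 (volume.restrict Ω))
    (h0 : ¬ ∀ᵐ x ∂(volume.restrict Ω), u x = 0) : 0 < ∫ x in Ω, u x ^ 2 := by
  refine lt_of_le_of_ne (integral_nonneg fun _ => sq_nonneg _) fun e => h0 ?_
  filter_upwards [(integral_eq_zero_iff_of_nonneg (fun _ => sq_nonneg _) h.integrable_sq).1 e.symm]
    with x hx
  simpa using hx

/-- the set whose infimum is `mu Ω k` -/
def Eig (Ω : Set E) (k : ℕ) : Set ℝ :=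
  {t : ℝ | ∃ (m : Fin (k + 1) → ℝ) (u : Fin (k + 1) → E → ℝ),
    (∀ i, m i ≤ t ∧ SolvesNeumann Ω (m i) (u i)) ∧
    ∀ c : Fin (k + 1) → ℝ, (∀ᵐ x ∂(volume.restrict Ω), ∑ i, c i * u i x = 0) → c = 0}

theorem eig_sub (Ω : Set E) (k : ℕ) : Eig Ω k ⊆ Adm Ω k := by
  rintro t ⟨m, u, H, hi⟩
  choose g hg he using fun i => (H i).2
  choose p hp using fun i => exists_rep (hg i)
  have h1 : ∀ c : Fin (k + 1) → ℝ, IsH1 Ω _ _ := fun c =>
    (Rep.sum hp c).mem_iff.1 (∑ j, c j • p j : HH Ω).2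
  have m0 : ∀ i, 0 ≤ m i := fun i => by
    have a := sq_pos (hg i).1 fun h0 => by
      simpa using congrFun (hi (Pi.single i 1) (by simpa [Pi.single_apply] using h0)) i
    have b := he i _ _ (hg i)
    simp only [← sq, real_inner_self_eq_norm_sq] at b
    exact nonneg_of_mul_nonneg_left (b ▸ integral_nonneg fun _ => sq_nonneg _) a
  have t0 : 0 < 1 + t := by linarith [m0 0, (H 0).1]
  have li : LinearIndependent ℝ fun i => ((u i, g i) : (E → ℝ) × (E → E)) :=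
    Fintype.linearIndependent_iff.2 fun c hc => congrFun (hi c (Eventually.of_forall fun x => by
      simpa [Prod.fst_sum, Finset.sum_apply] using congrFun (congrArg Prod.fst hc) x))
  refine ⟨Submodule.span ℝ (range fun i => (u i, g i)), by simpa using finrank_span_eq_card li,
    fun q hq => ?_⟩
  obtain ⟨c, rfl⟩ := (Submodule.mem_span_range_iff_exists_fun ℝ).1 hq
  have e1 : (∑ i, c i • ((u i, g i) : (E → ℝ) × (E → E))).1 = fun x => ∑ i, c i * u i x := by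
    ext x; simp [Prod.fst_sum, Finset.sum_apply]
  have e2 : (∑ i, c i • ((u i, g i) : (E → ℝ) × (E → E))).2 = fun x => ∑ i, c i • g i x := by
    ext x; simp [Prod.snd_sum, Finset.sum_apply]
  rw [e1, e2]
  refine ⟨h1 c, fun hne => (sq_pos (h1 c).1 fun h0 => hne (by simp [hi c h0])).ne', ?_⟩
  have := large (c := (1 + t)⁻¹) (fun j => ⟨inv_anti₀ (by linarith [m0 j]) (by linarith [(H j).1]),
    ((hp j).eig (by linarith [m0 j])).2 (he j)⟩) c
  rw [(Rep.sum hp c).n1, (Rep.sum hp c).n2, inv_mul_le_iff₀ t0] at this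
  linarith

/-- an admissible value gives eigenvectors in the Hilbert space -/
theorem adm_eig (h : IsLipschitzDomain Ω) {k : ℕ} {t t' : ℝ} (ht : t ∈ Adm Ω k) (h' : t < t') :
    ∃ (l : Fin (k + 1) → ℝ) (p : Fin (k + 1) → HH Ω), LinearIndependent ℝ p ∧
      ∀ j, (1 + t')⁻¹ < l j ∧ p j ∈ eigenspace (TT (ii Ω) : End ℝ (HH Ω)) (l j) := by
  have t0 := adm_nonneg ht
  obtain ⟨V, hV, H⟩ := ht
  have : Module.Finite ℝ V := Module.finite_of_finrank_eq_succ hV
  let b := Module.finBasisOfFinrankEq ℝ V hV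
  choose v hv using fun j => exists_rep (H _ (b j).2).1
  refine exists_eig (small h).compact v fun a ha => ?_
  obtain ⟨-, a2, a3⟩ := H _ (∑ i, a i • b i).2
  have e1 : ∀ x, (∑ i, a i • b i : V).1.1 x = ∑ i, a i * (b i).1.1 x := fun x => by
    simp [Prod.fst_sum, Finset.sum_apply]
  have e2 : ∀ x, (∑ i, a i • b i : V).1.2 x = ∑ i, a i • (b i).1.2 x := fun x => by
    simp [Prod.snd_sum, Finset.sum_apply]
  simp only [e1, e2] at a2 a3
  have := lt_of_le_of_ne (integral_nonneg fun x => sq_nonneg _) (a2 fun e => ha (funext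
    (Fintype.linearIndependent_iff.1 b.linearIndependent a (Subtype.ext e)))).symm
  rw [(Rep.sum hv a).n1, (Rep.sum hv a).n2, inv_mul_lt_iff₀ (by linarith)]
  nlinarith

theorem mem_Eig (h : IsLipschitzDomain Ω) {k : ℕ} {t t' : ℝ} (ht : t ∈ Adm Ω k) (h' : t < t') :
    t' ∈ Eig Ω k := by
  obtain ⟨l, p, li, H⟩ := adm_eig h ht h'
  have t0 : 0 < 1 + t' := by linarith [adm_nonneg ht]
  have l0 : ∀ j, 0 < l j := fun j => (inv_pos.2 t0).trans (H j).1
  have r := fun j => Rep.self (p j).1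
  refine ⟨fun j => (l j)⁻¹ - 1, fun j => (p j).1.fst, fun j => ⟨?_, _, (r j).mem_iff.1 (p j).2,
    ((r j).eig (by simpa using (l0 j).ne')).1 (by simpa using (H j).2)⟩, fun c hc => ?_⟩
  · linarith [(inv_lt_comm₀ t0 (l0 j)).1 (H j).1]
  · have := large (fun j => ⟨(H j).1.le, (H j).2⟩) c
    rw [(Rep.sum r c).n1, integral_congr_ae (g := fun _ => 0)
      (hc.mono fun x hx => by simp [hx]), integral_zero, inv_mul_le_iff₀ t0, mul_zero] at this
    exact funext (Fintype.linearIndependent_iff.1 li c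
      (norm_eq_zero.1 (pow_eq_zero_iff two_ne_zero |>.1 (le_antisymm this (sq_nonneg _)))))

/-- Courant-Fischer -/
theorem mu_eq (h : IsLipschitzDomain Ω) (k : ℕ) : mu Ω k = neumannEig Ω k := by
  change sInf (Eig Ω k) = sInf (Adm Ω k)
  rcases (Adm Ω k).eq_empty_or_nonempty with e | ⟨t, ht⟩
  · rw [e, subset_eq_empty (eig_sub Ω k) e]
  have bd : BddBelow (Adm Ω k) := ⟨0, fun _ => adm_nonneg⟩
  refine le_antisymm (le_csInf ⟨t, ht⟩ fun s hs => le_of_forall_gt_imp_ge_of_dense fun s' h' =>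
    csInf_le (bd.mono (eig_sub Ω k)) (mem_Eig h hs h'))
    (csInf_le_csInf bd ⟨_, mem_Eig h ht (lt_add_one t)⟩ (eig_sub Ω k))

end Pool.Agent.Lib.NV66
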