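import Pool.Agent.Lib.NV66.Hil

/-! The nontrivial Neumann eigenvalues of a bounded Lipschitz domain are positive. -/

set_option autoImplicit false

open MeasureTheory Set Filter Metric Module Module.End Topology
open scoped RealInnerProductSpace

namespace Pool.Agent.Lib.NV66

open Pool.Agent.Lib.MP_770ffc_an (IsH1 IsLipschitzDomain Adm neumannEig poincare_convex)

section
variable {H X : Type} [NormedAddCommGroup H] [InnerProductSpace ℝ H] [CompleteSpace H]
  [NormedAddCommGroup X] [InnerProductSpace ℝ X] [CompleteSpace X]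

omit [CompleteSpace H] in
theorem comb_perp {n : ℕ} {p : Fin n → H} (li : LinearIndependent ℝ p) (W : Submodule ℝ H)
    [FiniteDimensional ℝ W] (h : finrank ℝ W < n) :
    ∃ a : Fin n → ℝ, ∑ j, a j • p j ≠ 0 ∧ ∑ j, a j • p j ∈ Wᗮ := by
  have := FiniteDimensional.span_of_finite ℝ (finite_range p)
  obtain ⟨q, hq, h0, hW⟩ := exists_perp (Submodule.span ℝ (range p)) W
    (by rwa [finrank_span_eq_card li, Fintype.card_fin])
  obtain ⟨a, rfl⟩ := (Submodule.mem_span_range_iff_exists_fun ℝ).1 hq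
  exact ⟨a, h0, hW⟩

theorem Small.gap {i : H →L[ℝ] X} (h : Small i) : ∃ c, 0 < c ∧ c < 1 ∧
    ∀ l, c < l → HasEigenvalue (TT i : End ℝ H) l → 1 ≤ l := by
  have fin : {l | 1 / 2 ≤ l ∧ HasEigenvalue (TT i : End ℝ H) l}.Finite := by
    by_contra hf
    obtain ⟨W, _, hW⟩ := h (1 / 2) (by norm_num)
    let e := (Fin.valEmbedding (n := finrank ℝ W + 1)).trans (Set.Infinite.natEmbedding _ hf)
    choose p hp using fun j => (e j).2.2.exists_hasEigenvector
    obtain ⟨a, h0, ha⟩ := comb_perp (eigenvectors_linearIndependent' _ (fun j => (e j).1)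
      (Subtype.val_injective.comp e.injective) p hp) W (lt_add_one _)
    have h1 := large (fun j => ⟨(e j).2.1, (hp j).1⟩) a
    have h2 := pow_le_pow_left₀ (norm_nonneg _) (hW _ ha) 2
    nlinarith [norm_pos_iff.2 h0]
  obtain ⟨c, hc, hm⟩ := Set.exists_max_image _ id ((fin.inter_of_left (Iio 1)).insert (1 / 2))
    (insert_nonempty _ _)
  have c0 : 1 / 2 ≤ c := hm _ (mem_insert _ _)
  refine ⟨c, by linarith, ?_, fun l hl he => not_lt.1 fun h1 =>
    (hm l (Or.inr ⟨⟨c0.trans hl.le, he⟩, h1⟩)).not_gt hl⟩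
  rcases hc with rfl | hc
  · norm_num
  · exact hc.2

end

variable {E : Type} [NormedAddCommGroup E] [InnerProductSpace ℝ E]
  [FiniteDimensional ℝ E] [MeasurableSpace E] [BorelSpace E] {Ω : Set E}

theorem adm_ne [Nontrivial E] (h : IsLipschitzDomain Ω) (k : ℕ) : (Adm Ω k).Nonempty := by
  obtain ⟨x, hx⟩ := h.2.1.nonempty
  let e := (Fin.valEmbedding (n := k + 1)).trans
    (Set.Infinite.natEmbedding _ (infinite_of_mem_nhds x (h.1.mem_nhds hx)))
  obtain ⟨U, hU, hd⟩ := (finite_range fun j => (e j).1).t2_separation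
  choose f f1 f2 f3 f4 f5 using fun j => exists_contDiff_tsupport_subset (n := 1)
    (((hU (e j).1).2.inter h.1).mem_nhds ⟨(hU _).1, (e j).2⟩)
  have pos : ∀ j, 0 < ∫ x in Ω, f j x ^ 2 := fun j => by
    rw [setIntegral_eq_integral_of_forall_compl_eq_zero fun x hx => by
      simp [image_eq_zero_of_notMem_tsupport fun hh => hx (f1 j hh).2]]
    exact ((f3 j).continuous.pow 2).integral_pos_of_hasCompactSupport_nonneg_nonzero
      ((f2 j).comp_left (g := (· ^ 2)) (by simp)) (fun _ => sq_nonneg _)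
      (x := e j) (by simp [f5 j])
  refine ⟨∑ j, (∫ x in Ω, ‖fderiv ℝ (f j) x‖ ^ 2) / ∫ x in Ω, f j x ^ 2,
    NV46.adm_of_disjoint h.1.measurableSet h.2.2.1 f f3 (fun x i j hij => ?_) pos fun i => ?_⟩
  · have z : ∀ i, x ∉ U (e i) → f i x = 0 ∧ fderiv ℝ (f i) x = 0 := fun i hi =>
      ⟨image_eq_zero_of_notMem_tsupport fun hh => hi (f1 i hh).1,
        Function.notMem_support.1 fun hh => hi (f1 i (support_fderiv_subset ℝ hh)).1⟩
    by_cases hi : x ∈ U (e i)
    · exact Or.inr (z j (disjoint_left.1 (hd (mem_range_self i) (mem_range_self j)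
        fun hh => hij (e.injective (Subtype.ext hh))) hi))
    · exact Or.inl (z i hi)
  · rw [← div_le_iff₀ (pos i)]
    exact Finset.single_le_sum (f := fun j => (∫ x in Ω, ‖fderiv ℝ (f j) x‖ ^ 2) /
      ∫ x in Ω, f j x ^ 2) (fun j _ => div_nonneg (integral_nonneg fun _ => sq_nonneg _) (pos j).le)
      (Finset.mem_univ i)

theorem const_ball (hΩ : IsOpen Ω) {u : E → ℝ} {g : E → E} (h : IsH1 Ω u g)
    (h0 : ∫ x in Ω, ‖g x‖ ^ 2 ≤ 0) {x : E} {r : ℝ} (hr : 0 < r) (hb : ball x r ⊆ Ω) :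
    ∃ c, ∀ᵐ y, y ∈ ball x r → u y = c := by
  obtain ⟨c, hc⟩ := poincare_convex hΩ (convex_ball x r) measurableSet_ball hb
    (measure_ball_pos _ _ hr).ne' measure_ball_lt_top.ne (D := (2 * r) ^ 2) (fun y hy z hz => by
      rw [← dist_eq_norm]
      gcongr
      linarith [dist_triangle_right z y x, mem_ball.1 hy, mem_ball.1 hz]) h
  have := isFiniteMeasure_restrict.2 (measure_ball_lt_top (μ := volume) (x := x) (r := r)).ne
  refine ⟨c, (ae_restrict_iff' measurableSet_ball).1 (by_contra fun hn => ?_)⟩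
  have := sq_pos ((h.1.mono_measure (Measure.restrict_mono hb le_rfl)).sub (memLp_const c))
    (by simpa [sub_eq_zero] using hn)
  exact (this.trans_le hc).not_ge (mul_nonpos_of_nonneg_of_nonpos (by positivity) h0)

theorem zero_of (hΩ : IsOpen Ω) (hc : IsPreconnected Ω) {u : E → ℝ} {g : E → E} (h : IsH1 Ω u g)
    (h0 : ∫ x in Ω, ‖g x‖ ^ 2 ≤ 0) {x : E} {r : ℝ} (hr : 0 < r) (hb : ball x r ⊆ Ω)
    (hu : ∫ y in ball x r, u y = 0) : ∀ᵐ y ∂(volume.restrict Ω), u y = 0 := by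
  let Z : Set E := {z | ∃ O, IsOpen O ∧ z ∈ O ∧ ∀ᵐ y, y ∈ O → u y = 0}
  have hZ : Ω ⊆ Z := by
    refine hc.subset_of_closure_inter_subset (isOpen_iff_forall_mem_open.2 ?_) ⟨x,
      hb (mem_ball_self hr), _, isOpen_ball, mem_ball_self hr, ?_⟩ ?_
    · rintro z ⟨O, h1, h2, h3⟩
      exact ⟨O, fun y hy => ⟨O, h1, hy, h3⟩, h1, h2⟩
    · obtain ⟨c, hc⟩ := const_ball hΩ h h0 hr hb
      rw [setIntegral_congr_ae measurableSet_ball hc, setIntegral_const, smul_eq_mul, measureReal_def,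
        mul_eq_zero_iff_left (ENNReal.toReal_pos (measure_ball_pos _ _ hr).ne'
          measure_ball_lt_top.ne).ne'] at hu
      exact hu ▸ hc
    · rintro z ⟨h1, h2⟩
      obtain ⟨ρ, hρ, hρ'⟩ := Metric.isOpen_iff.1 hΩ z h2
      obtain ⟨c, hc⟩ := const_ball hΩ h h0 hρ hρ'
      obtain ⟨w, hw, O, h3, h4, h5⟩ := mem_closure_iff.1 h1 _ isOpen_ball (mem_ball_self hρ)
      obtain ⟨y, hy, a, b⟩ := Measure.exists_mem_of_measure_ne_zero_of_ae
        ((isOpen_ball.inter h3).measure_pos volume ⟨w, hw, h4⟩).ne' (ae_restrict_of_ae (hc.and h5))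
      exact ⟨_, isOpen_ball, mem_ball_self hρ, ((a hy.1).symm.trans (b hy.2)) ▸ hc⟩
  refine (ae_restrict_iff' hΩ.measurableSet).2 (measure_null_of_locally_null _ fun z hz => ?_)
  obtain ⟨O, h1, h2, h3⟩ := hZ (Classical.not_imp.1 hz).1
  refine ⟨_, inter_mem_nhdsWithin _ (h1.mem_nhds h2), measure_mono_null (fun y hy => ?_) h3⟩
  exact fun hh => (Classical.not_imp.1 hy.1).2 (hh hy.2)

theorem mu_pos [Nontrivial E] (h : IsLipschitzDomain Ω) {k : ℕ} (hk : 1 ≤ k) :
    0 < neumannEig Ω k := by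
  obtain ⟨c, c0, c1, hc⟩ := (small h).gap
  refine lt_of_lt_of_le (b := c⁻¹ - 1) (sub_pos.2 ((one_lt_inv₀ c0).2 c1))
    (le_csInf (adm_ne h k) fun t ht => not_lt.1 fun h' => ?_)
  obtain ⟨l, p, li, H⟩ := adm_eig h ht h'
  obtain ⟨x, hx⟩ := h.2.1.nonempty
  obtain ⟨r, hr, hb⟩ := Metric.isOpen_iff.1 h.1 x hx
  obtain ⟨z, hz⟩ := exists_avg measurableSet_ball hb measure_ball_lt_top.ne
  obtain ⟨a, h0, ha⟩ := comb_perp li (ℝ ∙ z)
    ((finrank_span_le_card {z}).trans_lt (by simp; omega))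
  have h1 := large (c := 1) (fun j => ⟨hc _ (by simpa using (H j).1)
    (hasEigenvalue_of_hasEigenvector ⟨(H j).2, li.ne_zero j⟩), (H j).2⟩) a
  generalize ∑ j, a j • p j = q at h0 ha h1
  have ρ := Rep.self q.1
  have h2 := zero_of h.1 h.2.1.isPreconnected (ρ.mem_iff.1 q.2)
    (by linarith [ρ.n1, ρ.n2]) hr hb
    ((hz q).symm.trans (Submodule.mem_orthogonal_singleton_iff_inner_right.1 ha))
  rw [ρ.n1, integral_congr_ae (g := fun _ => 0) (h2.mono fun x hx => by simp [hx]),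
    integral_zero, one_mul] at h1
  exact h1.not_gt (pow_pos (norm_pos_iff.2 h0) 2)

end Pool.Agent.Lib.NV66
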